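import Mathlib
import Pool.Agent.Lib.MP_af7c6a_co.Main

open Filter

namespace Pool.Agent.Results.MP_af7c6a_co.Superlinear

/-- `avoidNum N X δ` is the largest `n` for which there are points `p 0, …, p (n-1)` in a closed
`N`-ball of radius `X` (with some centre `c`) such that for `i ≠ j` the distance
`N (p i - p j)` is at distance at least `δ` from every integer. -/
noncomputable def avoidNum {d : ℕ} (N : Seminorm ℝ (Fin d → ℝ)) (X δ : ℝ) : ℕ :=
  sSup {n : ℕ | ∃ (c : Fin d → ℝ) (p : Fin n → (Fin d → ℝ)),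
    (∀ i, N (p i - c) ≤ X) ∧ ∀ i j, i ≠ j → ∀ k : ℤ, δ ≤ |N (p i - p j) - k|}

/-- For every exponent `A` there are a dimension `d ≥ 1` and a norm `N` on `ℝ^d` (a seminorm
vanishing only at `0`) such that for every `δ ∈ (0, 1/2)` one has
`avoidNum N X δ / X ^ A → ∞` as `X → ∞`. The case `A = 1` answers Q1 in the affirmative. -/
theorem result (A : ℕ) :
    ∃ d : ℕ, 1 ≤ d ∧ ∃ N : Seminorm ℝ (Fin d → ℝ), (∀ x, N x = 0 → x = 0) ∧
      ∀ δ : ℝ, 0 < δ → δ < 1 / 2 →
        Tendsto (fun X : ℝ => (avoidNum N X δ : ℝ) / X ^ A) atTop atTop :=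
  Pool.Agent.Lib.MP_af7c6a_co.main A

end Pool.Agent.Results.MP_af7c6a_co.Superlinear
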